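import Pool.Agent.Helper89.KN.Spec

/-! The deterministic reduction. -/

open MeasureTheory Set Filter Topology
open scoped ENNReal

namespace KN

namespace H15

theorem arc_lt {k m : ℕ} {x : Fin m → ℂ} {R : ℝ}
    (hR : ∀ i, k ≤ {l : Fin m | l ≠ i ∧ dist (x l) (x i) < R}.ncard) {i j : Fin m}
    (h : Arc k x i j) : dist (x i) (x j) < R := by
  by_contra hc
  push Not at hc
  have h1 : {l : Fin m | l ≠ i ∧ dist (x l) (x i) < R} ⊆
      {l : Fin m | l ≠ i ∧ dist (x l) (x i) < dist (x j) (x i)} := by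
    intro l hl
    refine ⟨hl.1, lt_of_lt_of_le hl.2 ?_⟩
    rw [dist_comm (x j)]
    exact hc
  have h2 := Set.ncard_le_ncard h1 (Set.toFinite _)
  have h3 := h.2
  have h4 := hR i
  omega

theorem arc_of_le {k m : ℕ} {x : Fin m → ℂ} {r : ℝ}
    (hr : ∀ i, {l : Fin m | l ≠ i ∧ dist (x l) (x i) < r}.ncard < k) {i j : Fin m}
    (hij : i ≠ j) (h : dist (x i) (x j) ≤ r) : Arc k x i j := by
  refine ⟨hij, ?_⟩
  have h1 : {l : Fin m | l ≠ i ∧ dist (x l) (x i) < dist (x j) (x i)} ⊆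
      {l : Fin m | l ≠ i ∧ dist (x l) (x i) < r} := by
    intro l hl
    refine ⟨hl.1, lt_of_lt_of_le hl.2 ?_⟩
    rw [dist_comm (x j)]
    exact h
  have h2 := Set.ncard_le_ncard h1 (Set.toFinite _)
  have h3 := hr i
  omega

theorem win_mono {m : ℕ} {x : Fin m → ℂ} {h : ℝ} {mc M M' q : ℕ} (hM : M ≤ M') (hM' : M' ≤ mc)
    (H : ∀ a b : ℕ, a + M' ≤ mc → b + M' ≤ mc →
      {c : ℕ × ℕ | c ∈ WinCells M' a b ∧ ∀ i : Fin m, x i ∉ NCell h c}.ncard ≤ q)
    (a b : ℕ) (ha : a + M ≤ mc) (hb : b + M ≤ mc) :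
    {c : ℕ × ℕ | c ∈ WinCells M a b ∧ ∀ i : Fin m, x i ∉ NCell h c}.ncard ≤ q := by
  have h1 := H (min a (mc - M')) (min b (mc - M')) (by omega) (by omega)
  refine le_trans (Set.ncard_le_ncard ?_ ?_) h1
  · rintro c ⟨hc1, hc2⟩
    refine ⟨?_, hc2⟩
    unfold WinCells at hc1 ⊢
    rw [Finset.mem_product, Finset.mem_Ico, Finset.mem_Ico] at hc1 ⊢
    omega
  · exact (Finset.finite_toSet (WinCells M' _ _)).subset (fun c hc => hc.1)

end H15

open H15 in
theorem dr_thm (h1 : S_DR1) (h2 : S_DR2) (h3 : S_DR3) : S_DR := by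
  classical
  intro ℓ h r R mc M M' q k m x hh hr hrR hℓ hk hM hMM' hM' h5 hx hwin hsmall hlarge hem hSC
  have hRpos : 0 < R := lt_of_lt_of_le hr hrR
  unfold SC at hSC
  push Not at hSC
  obtain ⟨i₀, j₀, hij⟩ := hSC
  set A₀ : Set (Fin m) := {i | Relation.ReflTransGen (Arc k x) i j₀} with hA₀
  have hcl : ∀ i ∉ A₀, ∀ j ∈ A₀, ¬ Arc k x i j := by
    intro i hi j hj harc
    exact hi (Relation.ReflTransGen.head harc hj)
  have hj₀ : j₀ ∈ A₀ := Relation.ReflTransGen.refl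
  have hi₀ : i₀ ∉ A₀ := hij
  have hclass : ∀ i j, dist (x i) (x j) ≤ r → (i ∈ A₀ ↔ j ∈ A₀) := by
    intro i j hd
    by_cases hij' : i = j
    · rw [hij']
    · have e1 : Arc k x i j := arc_of_le hsmall hij' hd
      have e2 : Arc k x j i := arc_of_le hsmall (Ne.symm hij') (by rw [dist_comm]; exact hd)
      constructor
      · intro hi
        by_contra hj
        exact hcl j hj i hi e2
      · intro hj
        by_contra hi
        exact hcl i hi j hj e1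
  have hMmc : M ≤ mc := le_trans hMM' hM'
  have hM1 : 1 ≤ M := by omega
  have hD1 := h1 ℓ h r mc M q m x A₀ hh hℓ hM hMmc h5 hx (win_mono hMM' hM' hem) hclass
  rcases hD1 with hD1 | hD1
  · obtain ⟨B, hB1, hB2, hB3, hB4⟩ := h2 m (Arc k x) A₀ ⟨j₀, hj₀⟩ hcl
    refine ⟨B.toFinset, ?_, Or.inl ?_, ?_, ?_⟩
    · rwa [Set.toFinset_nonempty]
    · intro i hi j hj
      rw [Set.mem_toFinset] at hi hj
      exact hB3 i hi j hj
    · intro i hi j hj
      rw [Set.mem_toFinset] at hi hj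
      refine h3 ℓ h R mc M M' q m x B hh hRpos hℓ hM1 hM' hx hwin hem
        (fun i hi => (hD1 i (hB2 hi)).1) ?_ i hi j hj
      intro i hi j hj
      refine Relation.ReflTransGen.mono ?_ _ _ (hB4 i hi j hj)
      intro a b hab
      exact ⟨hab.1, hab.2.1, arc_lt hlarge hab.2.2⟩
    · intro i hi
      rw [Set.mem_toFinset] at hi
      obtain ⟨e1, j, hj, e2⟩ := hD1 i (hB2 hi)
      exact ⟨e1, j, fun hj' => hj (hB2 (Set.mem_toFinset.1 hj')), e2⟩
  · have hcl' : ∀ i ∉ A₀ᶜ, ∀ j ∈ A₀ᶜ, ¬ Arc k x j i := by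
      intro i hi j hj
      rw [Set.notMem_compl_iff] at hi
      exact hcl j hj i hi
    obtain ⟨B, hB1, hB2, hB3, hB4⟩ := h2 m (fun i j => Arc k x j i) A₀ᶜ ⟨i₀, hi₀⟩ hcl'
    refine ⟨B.toFinset, ?_, Or.inr ?_, ?_, ?_⟩
    · rwa [Set.toFinset_nonempty]
    · intro i hi j hj
      rw [Set.mem_toFinset] at hi hj
      exact hB3 j hj i hi
    · intro i hi j hj
      rw [Set.mem_toFinset] at hi hj
      refine h3 ℓ h R mc M M' q m x B hh hRpos hℓ hM1 hM' hx hwin hem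
        (fun i hi => (hD1 i (hB2 hi)).1) ?_ i hi j hj
      intro i hi j hj
      refine Relation.ReflTransGen.mono ?_ _ _ (hB4 i hi j hj)
      intro a b hab
      refine ⟨hab.1, hab.2.1, ?_⟩
      rw [dist_comm]
      exact arc_lt hlarge hab.2.2
    · intro i hi
      rw [Set.mem_toFinset] at hi
      obtain ⟨e1, j, hj, e2⟩ := hD1 i (hB2 hi)
      refine ⟨e1, j, fun hj' => ?_, e2⟩
      exact hB2 (Set.mem_toFinset.1 hj') hj

end KN
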