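import Pool.Agent.Helper89.KN.Spec

/-! Minimal in-closed sets are strongly connected. -/

open MeasureTheory Set Filter Topology
open scoped ENNReal

namespace KN

theorem dr2_thm : S_DR2 := by
  intro m E A hA hcl
  have hfin : ({B : Set (Fin m) | B.Nonempty ∧ B ⊆ A ∧ (∀ i ∉ B, ∀ j ∈ B, ¬ E i j)}).Finite :=
    Set.toFinite _
  obtain ⟨B, ⟨hB1, hB2, hB3⟩, hmin⟩ := hfin.exists_minimal ⟨A, hA, subset_rfl, hcl⟩
  refine ⟨B, hB1, hB2, hB3, ?_⟩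
  intro i hi j hj
  set Anc : Set (Fin m) := {i | i ∈ B ∧
    Relation.ReflTransGen (fun a b => a ∈ B ∧ b ∈ B ∧ E a b) i j} with hAnc
  have h1 : Anc ∈ {B : Set (Fin m) | B.Nonempty ∧ B ⊆ A ∧ (∀ i ∉ B, ∀ j ∈ B, ¬ E i j)} := by
    refine ⟨⟨j, hj, Relation.ReflTransGen.refl⟩, fun p hp => hB2 hp.1, ?_⟩
    intro p hp a ha hE
    by_cases hpB : p ∈ B
    · exact hp ⟨hpB, Relation.ReflTransGen.head ⟨hpB, ha.1, hE⟩ ha.2⟩
    · exact hB3 p hpB a ha.1 hE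
  have h2 : B ≤ Anc := hmin h1 (fun p hp => hp.1)
  exact (h2 hi).2

end KN
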