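import Pool.Agent.Helper89.KN.Spec

/-! Diameter bound: a connected set of points near empty cells has bounded diameter. -/

open MeasureTheory Set Filter Topology
open scoped ENNReal

namespace KN

namespace H15

theorem exists_on_path {m : ℕ} {A : Set (Fin m)} {r : Fin m → Fin m → Prop} {f : Fin m → ℝ}
    {i j : Fin m} {τ R : ℝ} (hi : i ∈ A) (hr : ∀ a b, r a b → b ∈ A ∧ f b < f a + R)
    (h : Relation.ReflTransGen r i j) (h0 : f i < τ + R) :
    τ ≤ f j → ∃ p ∈ A, τ ≤ f p ∧ f p < τ + R := by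
  induction h with
  | refl => intro h1; exact ⟨i, hi, h1, h0⟩
  | @tail b c hab hbc ih =>
    intro h1
    by_cases hb : τ ≤ f b
    · exact ih hb
    · push Not at hb
      obtain ⟨hc, hf⟩ := hr b c hbc
      exact ⟨c, hc, h1, by linarith⟩

/-- choice of the window position in one coordinate -/
theorem window_pos (h ρ u : ℝ) (mc M' : ℕ) (hh : 0 < h) (hM' : M' ≤ mc)
    (hρ : 2 * ρ + 4 * h ≤ M' * h) :
    ∃ a : ℕ, a + M' ≤ mc ∧ ∀ c : ℕ, c < mc → ∀ y : ℝ, |y - u| ≤ ρ → (c : ℝ) * h ≤ y →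
      y ≤ (c + 1) * h → a ≤ c ∧ c < a + M' := by
  refine ⟨min ⌊(u - ρ) / h - 1⌋₊ (mc - M'), ?_, ?_⟩
  · have := min_le_right ⌊(u - ρ) / h - 1⌋₊ (mc - M')
    omega
  · intro c hc y hy h1 h2
    rw [abs_le] at hy
    have hc1 : (u - ρ) / h - 1 ≤ c := by
      rw [sub_le_iff_le_add, div_le_iff₀ hh]
      linarith [hy.1]
    have hc2 : (c : ℝ) ≤ (u + ρ) / h := by
      rw [le_div_iff₀ hh]
      linarith [hy.2]
    have hM2 : 2 * ρ / h + 4 ≤ M' := by
      have : (2 * ρ + 4 * h) / h ≤ M' := by rw [div_le_iff₀ hh]; exact hρ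
      rw [add_div, mul_div_assoc, mul_div_assoc, div_self hh.ne'] at this
      rw [mul_div_assoc]
      linarith
    constructor
    · refine le_trans (min_le_left _ _) ?_
      have h3 : ⌊(u - ρ) / h - 1⌋₊ ≤ ⌊(c : ℝ)⌋₊ := Nat.floor_le_floor hc1
      simpa using h3
    · rcases le_total ⌊(u - ρ) / h - 1⌋₊ (mc - M') with h3 | h3
      · rw [min_eq_left h3]
        have h4 : (u - ρ) / h - 1 < ⌊(u - ρ) / h - 1⌋₊ + 1 := Nat.lt_floor_add_one _
        have h5 : (c : ℝ) < (⌊(u - ρ) / h - 1⌋₊ : ℝ) + M' := by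
          have e1 : (u + ρ) / h = (u - ρ) / h + 2 * ρ / h := by
            rw [← add_div]; congr 1; ring
          rw [e1] at hc2
          linarith
        exact_mod_cast h5
      · rw [min_eq_right h3]
        omega

end H15

open H15 in
theorem dr3_thm : S_DR3 := by
  intro ℓ h R mc M M' q m x A hh hR hℓ hM hM' hx hwin hem hnear hpath i hi j hj
  by_contra hcon
  push Not at hcon
  set s : ℝ := Real.sqrt 2 * M * h with hs
  set w : ℝ := 2 * Real.sqrt 2 * M * h + 2 * R with hw
  have hws : w = 2 * s + 2 * R := by rw [hw, hs]; ring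
  have hs0 : 0 ≤ s := by positivity
  have hw0 : 0 < w := by rw [hws]; linarith
  have key : ∀ t : Fin (q + 1), ∃ p ∈ A, ((t : ℕ) : ℝ) * w ≤ dist (x i) (x p) ∧
      dist (x i) (x p) < ((t : ℕ) : ℝ) * w + R := by
    intro t
    refine exists_on_path (f := fun p => dist (x i) (x p)) hi ?_ (hpath i hi j hj) ?_ ?_
    · intro a b hab
      refine ⟨hab.2.1, ?_⟩
      have := dist_triangle (x i) (x a) (x b)
      have h2 := hab.2.2
      linarith
    · simp only [dist_self]
      positivity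
    · have ht : ((t : ℕ) : ℝ) ≤ q := by exact_mod_cast Nat.lt_succ_iff.1 t.2
      have := mul_le_mul_of_nonneg_right ht hw0.le
      linarith
  choose p hpA hp1 hp2 using key
  have hdist : ∀ t t' : Fin (q + 1), t < t' → 2 * s < dist (x (p t)) (x (p t')) := by
    intro t t' htt
    have h1 : ((t : ℕ) : ℝ) + 1 ≤ (t' : ℕ) := by exact_mod_cast htt
    have h2 := mul_le_mul_of_nonneg_right h1 hw0.le
    have h3 := dist_triangle (x i) (x (p t)) (x (p t'))
    have h4 := hp1 t'
    have h5 := hp2 t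
    nlinarith
  choose c hc1 hc2 hc3 hc4 using fun t => hnear (p t) (hpA t)
  have hll : ∀ t, ((⟨(c t).1 * h, (c t).2 * h⟩ : ℂ)) ∈ NCell h (c t) := by
    intro t
    unfold NCell Cell
    simp only [mem_ofPred_eq, Int.cast_natCast]
    refine ⟨le_refl _, by nlinarith, le_refl _, by nlinarith⟩
  have hinj : Function.Injective c := by
    intro t t' hct
    by_contra hne
    have hd : 2 * s < dist (x (p t)) (x (p t')) := by
      rcases lt_or_gt_of_ne hne with h1 | h1
      · exact hdist t t' h1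
      · rw [dist_comm]; exact hdist t' t h1
    have h1 := hc4 t _ (hll t)
    have h2 := hc4 t' _ (hll t')
    rw [← hct] at h2
    have h3 := dist_triangle_left (x (p t)) (x (p t')) (⟨(c t).1 * h, (c t).2 * h⟩ : ℂ)
    linarith
  set ρ : ℝ := q * w + R + s with hρ
  obtain ⟨a, ha, ha'⟩ := window_pos h ρ (x i).re mc M' hh hM' hwin
  obtain ⟨b, hb, hb'⟩ := window_pos h ρ (x i).im mc M' hh hM' hwin
  have hle := hem a b ha hb
  have hfin : {c : ℕ × ℕ | c ∈ WinCells M' a b ∧ ∀ i : Fin m, x i ∉ NCell h c}.Finite :=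
    (Finset.finite_toSet (WinCells M' a b)).subset (fun c hc => hc.1)
  have hsub : Set.range c ⊆ {c : ℕ × ℕ | c ∈ WinCells M' a b ∧ ∀ i : Fin m, x i ∉ NCell h c} := by
    rintro _ ⟨t, rfl⟩
    refine ⟨?_, hc3 t⟩
    set z : ℂ := ⟨(c t).1 * h, (c t).2 * h⟩ with hz
    have hzc := hll t
    have hzd : dist z (x i) ≤ ρ := by
      have h1 := hc4 t _ (hll t)
      have h2 := dist_triangle_right z (x i) (x (p t))
      have h3 := hp2 t
      have ht : ((t : ℕ) : ℝ) ≤ q := by exact_mod_cast Nat.lt_succ_iff.1 t.2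
      have h4 := mul_le_mul_of_nonneg_right ht hw0.le
      rw [hρ]
      linarith
    have hre : |z.re - (x i).re| ≤ ρ := by
      refine le_trans ?_ hzd
      rw [Complex.dist_eq, ← Complex.sub_re]
      exact Complex.abs_re_le_norm _
    have him : |z.im - (x i).im| ≤ ρ := by
      refine le_trans ?_ hzd
      rw [Complex.dist_eq, ← Complex.sub_im]
      exact Complex.abs_im_le_norm _
    unfold NCell Cell at hzc
    simp only [mem_ofPred_eq, Int.cast_natCast] at hzc
    have h1 := ha' (c t).1 (hc1 t) z.re hre hzc.1 hzc.2.1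
    have h2 := hb' (c t).2 (hc2 t) z.im him hzc.2.2.1 hzc.2.2.2
    unfold WinCells
    rw [Finset.mem_product, Finset.mem_Ico, Finset.mem_Ico]
    exact ⟨h1, h2⟩
  have h1 := Set.ncard_le_ncard hsub hfin
  have h2 : (Set.range c).ncard = q + 1 := by
    rw [← Set.image_univ, Set.ncard_image_of_injective _ hinj, Set.ncard_univ]
    simp
  omega

end KN
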