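import Pool.Agent.Helper89.KN.Spec
import Pool.Agent.Helper89.KN.Base

/-! The probabilistic reduction. -/

open MeasureTheory Set Filter Topology
open scoped ENNReal

namespace KN

namespace H15

theorem not_arc_ball {k m : ℕ} {x : Fin m → ℂ} {r : ℝ} (hk : 1 ≤ k)
    (hr : ∀ i, {l : Fin m | l ≠ i ∧ dist (x l) (x i) < r}.ncard < k) {i j : Fin m}
    (hij : i ≠ j) (h : ¬ Arc k x i j) :
    k + 1 ≤ cnt (Metric.ball (x i) (dist (x j) (x i))) (conf x) ∧ r ≤ dist (x j) (x i) := by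
  set S : Set (Fin m) := {l : Fin m | l ≠ i ∧ dist (x l) (x i) < dist (x j) (x i)} with hS
  have h1 : k ≤ S.ncard := by
    by_contra hc
    push Not at hc
    exact h ⟨hij, hc⟩
  have h2 : 0 < dist (x j) (x i) := by
    have : S.Nonempty := by
      rw [← Set.ncard_pos (Set.toFinite _)]
      omega
    obtain ⟨l, hl⟩ := this
    exact lt_of_le_of_lt dist_nonneg hl.2
  constructor
  · rw [cnt_conf_eq_ncard]
    have h3 : insert i S ⊆ {l | x l ∈ Metric.ball (x i) (dist (x j) (x i))} := by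
      intro l hl
      rcases hl with rfl | hl
      · exact Metric.mem_ball_self h2
      · exact hl.2
    have h4 := Set.ncard_le_ncard h3 (Set.toFinite _)
    rw [Set.ncard_insert_of_notMem (fun hi => hi.1 rfl) (Set.toFinite _)] at h4
    omega
  · by_contra hc
    push Not at hc
    have h3 : S ⊆ {l : Fin m | l ≠ i ∧ dist (x l) (x i) < r} :=
      fun l hl => ⟨hl.1, hl.2.trans hc⟩
    have h4 := Set.ncard_le_ncard h3 (Set.toFinite _)
    have h5 := hr i
    omega

open Classical in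
theorem conf_split {m : ℕ} (x : Fin m → ℂ) (A : Finset (Fin m)) :
    conf x = A.val.map x + (Aᶜ).val.map x := by
  have h1 : A.disjUnion Aᶜ disjoint_compl_right = Finset.univ := by
    ext i
    simp only [Finset.disjUnion_eq_union, Finset.mem_union, Finset.mem_compl, Finset.mem_univ,
      iff_true]
    exact _root_.em _
  have h2 : A.val + (Aᶜ).val = (Finset.univ : Finset (Fin m)).val := congrArg Finset.val h1
  unfold conf
  rw [← h2, Multiset.map_add]

/-- the deterministic part -/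
theorem red_det (hDR : S_DR) (n h r R D dm Λ₁ J : ℝ) (mc M M' q k m : ℕ) (x : Fin m → ℂ)
    (hh : 0 < h) (hr : 0 < r) (hrR : r ≤ R) (hℓ : Real.sqrt n = mc * h) (hk : 1 ≤ k)
    (hM : M = 2 * q + 1) (hMM' : M ≤ M') (hM' : M' ≤ mc) (h5 : Real.sqrt 5 * h ≤ r)
    (hx : ∀ i, x i ∈ Sq n)
    (hwin : 2 * (q * (2 * Real.sqrt 2 * M * h + 2 * R) + R + Real.sqrt 2 * M * h) + 4 * h ≤ M' * h)
    (hsmall : ∀ i, {l : Fin m | l ≠ i ∧ dist (x l) (x i) < r}.ncard < k)
    (hlarge : ∀ i, k ≤ {l : Fin m | l ≠ i ∧ dist (x l) (x i) < R}.ncard)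
    (hem : ∀ a b : ℕ, a + M' ≤ mc → b + M' ≤ mc →
      {c : ℕ × ℕ | c ∈ WinCells M' a b ∧ ∀ i : Fin m, x i ∉ NCell h c}.ncard ≤ q)
    (hcor : ∀ c : ℕ × ℕ, c.1 < mc → c.2 < mc → (∀ i : Fin m, x i ∉ NCell h c) →
      ∀ z ∈ NCell h c, ∀ w ∈ corners n, J < dist z w)
    (hD : q * (2 * Real.sqrt 2 * M * h + 2 * R) ≤ D) (hdm : Real.sqrt 2 * M * h ≤ dm)
    (hJ : Λ₁ + dm ≤ J) (hSC : ¬ SC k x) :
    ¬ NZ k x ∨ BadI k n r D dm Λ₁ (conf x) ∨ BadO k n r D dm Λ₁ (conf x) := by
  classical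
  obtain ⟨A, hA, hcl, hdiam, hne⟩ := hDR (Real.sqrt n) h r R mc M M' q k m x hh hr hrR hℓ hk hM
    hMM' hM' h5 hx hwin hsmall hlarge hem hSC
  have hfar : ∀ i ∈ A, ∀ w ∈ corners n, Λ₁ ≤ dist (x i) w := by
    intro i hi w hw
    obtain ⟨⟨c, hc1, hc2, hc3, hc4⟩, -⟩ := hne i hi
    have hll : ((⟨c.1 * h, c.2 * h⟩ : ℂ)) ∈ NCell h c := by
      unfold NCell Cell
      simp only [mem_ofPred_eq, Int.cast_natCast]
      refine ⟨le_refl _, by nlinarith, le_refl _, by nlinarith⟩
    have e1 := hcor c hc1 hc2 hc3 _ hll w hw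
    have e2 := hc4 _ hll
    have e3 := dist_triangle (⟨c.1 * h, c.2 * h⟩ : ℂ) (x i) w
    linarith
  have hsplit := conf_split x A
  have memA : ∀ z, z ∈ A.val.map x ↔ ∃ i ∈ A, x i = z := by
    intro z
    rw [Multiset.mem_map]
    rfl
  have memP : ∀ z, z ∈ (Aᶜ).val.map x ↔ ∃ i, i ∉ A ∧ x i = z := by
    intro z
    rw [Multiset.mem_map]
    constructor
    · rintro ⟨i, hi, rfl⟩
      exact ⟨i, Finset.mem_compl.1 hi, rfl⟩
    · rintro ⟨i, hi, rfl⟩
      exact ⟨i, Finset.mem_compl.2 hi, rfl⟩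
  rcases hcl with hcl | hcl
  · by_cases hcard : 2 ≤ A.card
    · right; left
      refine ⟨A.val.map x, (Aᶜ).val.map x, hsplit, ?_, ⟨?_, ?_, ?_⟩, ?_⟩
      · rw [Multiset.card_map]; exact hcard
      · intro a ha p hp
        obtain ⟨j, hj, rfl⟩ := (memA a).1 ha
        obtain ⟨i, hi, rfl⟩ := (memP p).1 hp
        rw [← hsplit]
        exact not_arc_ball hk hsmall (fun hij => hi (hij ▸ hj)) (hcl i hi j hj)
      · intro a ha a' ha'
        obtain ⟨i, hi, rfl⟩ := (memA a).1 ha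
        obtain ⟨j, hj, rfl⟩ := (memA a').1 ha'
        exact (hdiam i hi j hj).trans hD
      · obtain ⟨i, hi⟩ := hA
        obtain ⟨-, j, hj, hd⟩ := hne i hi
        exact ⟨x i, (memA _).2 ⟨i, hi, rfl⟩, x j, (memP _).2 ⟨j, hj, rfl⟩, hd.trans hdm⟩
      · intro a ha w hw
        obtain ⟨i, hi, rfl⟩ := (memA a).1 ha
        exact hfar i hi w hw
    · left
      have hc1 : A.card = 1 := by
        have := Finset.card_pos.2 hA
        omega
      obtain ⟨j, hj⟩ := Finset.card_eq_one.1 hc1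
      intro hNZ
      obtain ⟨i, hi⟩ := hNZ j
      have hij : i ∉ A := by
        rw [hj, Finset.mem_singleton]
        exact hi.1
      exact hcl i hij j (by rw [hj]; exact Finset.mem_singleton_self j) hi
  · right; right
    refine ⟨A.val.map x, (Aᶜ).val.map x, hsplit, ⟨?_, ?_, ?_, ?_⟩, ?_⟩
    · obtain ⟨i, hi⟩ := hA
      intro h0
      have : x i ∈ A.val.map x := (memA _).2 ⟨i, hi, rfl⟩
      rw [h0] at this
      simp at this
    · intro b hb p hp
      obtain ⟨i, hi, rfl⟩ := (memA b).1 hb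
      obtain ⟨j, hj, rfl⟩ := (memP p).1 hp
      rw [← hsplit]
      exact not_arc_ball hk hsmall (fun hij => hj (hij ▸ hi)) (hcl i hi j hj)
    · intro b hb b' hb'
      obtain ⟨i, hi, rfl⟩ := (memA b).1 hb
      obtain ⟨j, hj, rfl⟩ := (memA b').1 hb'
      exact (hdiam i hi j hj).trans hD
    · intro b hb
      obtain ⟨i, hi, rfl⟩ := (memA b).1 hb
      obtain ⟨-, j, hj, hd⟩ := hne i hi
      refine ⟨x j, (memP _).2 ⟨j, hj, rfl⟩, ?_⟩
      rw [dist_comm]
      exact hd.trans hdm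
    · intro b hb w hw
      obtain ⟨i, hi, rfl⟩ := (memA b).1 hb
      exact hfar i hi w hw

/-- elementary asymptotics of the grid -/
theorem grid_eventually (c e : ℝ) (hcp : 0 < c) (he : 0 < e) (M' : ℕ) :
    ∀ᶠ n : ℝ in atTop, 0 < lam n ∧ 1 ≤ kn c n ∧ M' ≤ mc e n ∧ 0 < mc e n ∧
      e / 2 * lam n ≤ hc e n ∧ hc e n ≤ e * lam n ∧ Real.sqrt n = mc e n * hc e n := by
  set ε : ℝ := 1 / (e * (M' + 2)) with hε
  have hε0 : 0 < ε := by positivity
  have h1 : ∀ᶠ n : ℝ in atTop, Real.log n ≤ ε ^ 2 * n := by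
    have h := (Real.isLittleO_log_id_atTop).bound (c := ε ^ 2) (by positivity)
    filter_upwards [h, eventually_ge_atTop (0 : ℝ)] with n hn hn0
    simp only [Real.norm_eq_abs, id_eq] at hn
    rw [abs_of_nonneg hn0] at hn
    exact (le_abs_self _).trans hn
  have h2 : ∀ᶠ n : ℝ in atTop, 1 / c ≤ Real.log n :=
    Real.tendsto_log_atTop.eventually_ge_atTop _
  filter_upwards [h1, h2, eventually_gt_atTop (1 : ℝ)] with n hn1 hn2 hn3
  have hlog : 0 < Real.log n := Real.log_pos hn3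
  have hlam : 0 < lam n := Real.sqrt_pos.2 hlog
  have hsq : 0 < Real.sqrt n := Real.sqrt_pos.2 (by linarith)
  have hle : lam n ≤ ε * Real.sqrt n := by
    unfold lam
    rw [show ε * Real.sqrt n = Real.sqrt (ε ^ 2 * n) by
      rw [Real.sqrt_mul (by positivity), Real.sqrt_sq hε0.le]]
    exact Real.sqrt_le_sqrt hn1
  have hbig : (M' : ℝ) + 2 ≤ Real.sqrt n / (e * lam n) := by
    rw [le_div_iff₀ (by positivity)]
    have h3 : ((M' : ℝ) + 2) * (e * lam n) ≤ ((M' : ℝ) + 2) * (e * (ε * Real.sqrt n)) := by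
      gcongr
    have h4 : ((M' : ℝ) + 2) * (e * (ε * Real.sqrt n)) = Real.sqrt n := by
      rw [hε]
      field_simp
    linarith
  have hmc1 : Real.sqrt n / (e * lam n) ≤ mc e n := Nat.le_ceil _
  have hmc2 : (mc e n : ℝ) < Real.sqrt n / (e * lam n) + 1 :=
    Nat.ceil_lt_add_one (by positivity)
  have hmcpos : (0 : ℝ) < mc e n := by
    have : (0 : ℝ) ≤ M' := Nat.cast_nonneg _
    linarith
  refine ⟨hlam, ?_, ?_, ?_, ?_, ?_, ?_⟩
  · unfold kn
    rw [Nat.one_le_floor_iff]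
    rw [div_le_iff₀ hcp] at hn2
    linarith
  · have : (M' : ℝ) ≤ mc e n := by linarith
    exact_mod_cast this
  · exact_mod_cast hmcpos
  · unfold hc
    rw [le_div_iff₀ hmcpos]
    have h3 : (mc e n : ℝ) ≤ 2 * (Real.sqrt n / (e * lam n)) := by
      have : (0 : ℝ) ≤ M' := Nat.cast_nonneg _
      linarith
    calc e / 2 * lam n * (mc e n : ℝ) ≤ e / 2 * lam n * (2 * (Real.sqrt n / (e * lam n))) := by
          gcongr
      _ = Real.sqrt n := by field_simp
  · unfold hc
    rw [div_le_iff₀ hmcpos]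
    rw [div_le_iff₀ (by positivity)] at hmc1
    linarith
  · unfold hc
    field_simp

end H15

open H15 in
theorem red_thm (hDR : S_DR) (h0 : S_G0) (h1 : S_G1) (h2 : S_G2) (hB : S_BASIC) : S_RED := by
  intro c hcp
  obtain ⟨a₀, ha₀, hG0⟩ := h0 c hcp
  obtain ⟨C, hC, hG2, -⟩ := h2 c hcp
  set e : ℝ := a₀ / 3 with he_def
  have he : 0 < e := by positivity
  obtain ⟨q, hq1, hq2⟩ := h1 e he
  set M : ℕ := 2 * q + 1 with hM
  set C' : ℝ := max C a₀ with hC'
  have hC'0 : 0 < C' := lt_of_lt_of_le hC (le_max_left _ _)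
  set d : ℝ := Real.sqrt 2 * M * e with hd
  have hd0 : 0 < d := by positivity
  set D : ℝ := q * (2 * Real.sqrt 2 * M * e + 2 * C') + 1 with hD
  have hD0 : 0 < D := by positivity
  obtain ⟨N₀, hN₀⟩ := exists_nat_ge ((2 * (D + C' + d) + 4 * e) / (e / 2))
  set M' : ℕ := max M N₀ with hM'
  have hM'2 : 2 * (D + C' + d) + 4 * e ≤ M' * (e / 2) := by
    rw [div_le_iff₀ (by positivity)] at hN₀
    refine hN₀.trans ?_
    gcongr
    exact_mod_cast le_max_right _ _
  refine ⟨a₀, D, d, ha₀, hD0, hd0, ?_⟩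
  intro Λ₁ hΛ₁
  set J : ℝ := Λ₁ + d with hJ
  set E0 : ℝ → ∀ m : ℕ, (Fin m → ℂ) → Prop := fun n m x => ∃ i : Fin m,
      kn c n ≤ {l : Fin m | l ≠ i ∧ dist (x l) (x i) < a₀ * lam n}.ncard with hE0
  set E2 : ℝ → ∀ m : ℕ, (Fin m → ℂ) → Prop := fun n m x => ∃ i : Fin m,
      {l : Fin m | l ≠ i ∧ dist (x l) (x i) < C * lam n}.ncard < kn c n with hE2
  set E1 : ℝ → ∀ m : ℕ, (Fin m → ℂ) → Prop := fun n m x => ∃ a b : ℕ, a + M' ≤ mc e n ∧
      b + M' ≤ mc e n ∧
      q < {c : ℕ × ℕ | c ∈ WinCells M' a b ∧ ∀ i : Fin m, x i ∉ NCell (hc e n) c}.ncard with hE1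
  set E3 : ℝ → ∀ m : ℕ, (Fin m → ℂ) → Prop := fun n m x => ∃ c : ℕ × ℕ, c.1 < mc e n ∧
      c.2 < mc e n ∧
      (∀ i : Fin m, x i ∉ NCell (hc e n) c) ∧ ∃ z ∈ NCell (hc e n) c, ∃ w ∈ corners n,
        dist z w ≤ J * lam n with hE3
  refine ⟨fun n => prob (Sq n) (E0 n) + prob (Sq n) (E2 n) + prob (Sq n) (E1 n) +
    prob (Sq n) (E3 n), ?_, ?_⟩
  · have := ((hG0.add hG2).add (hq1 M')).add (hq2 J)
    rw [add_zero, add_zero, add_zero] at this
    exact this
  · filter_upwards [grid_eventually c e hcp he M'] with n hn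
    obtain ⟨hlam, hk, hM'mc, hmcpos, hh1, hh2, hℓ⟩ := hn
    obtain ⟨hB1, hB2, -, -, -⟩ := hB
    have hsm : MeasurableSet (Sq n) := by
      unfold Sq SqL
      have e1 : Measurable (fun z : ℂ => z.re) := Complex.measurable_re
      have e2 : Measurable (fun z : ℂ => z.im) := Complex.measurable_im
      exact ((measurableSet_le measurable_const e1).inter
        ((measurableSet_le e1 measurable_const).inter
          ((measurableSet_le measurable_const e2).inter
            (measurableSet_le e2 measurable_const))))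
    have hmain : prob (Sq n) (fun _ x => ¬ SC (kn c n) x) ≤ prob (Sq n) (fun m x =>
        (((((¬ NZ (kn c n) x ∨
          BadI (kn c n) n (a₀ * lam n) (D * lam n) (d * lam n) (Λ₁ * lam n) (conf x)) ∨
          BadO (kn c n) n (a₀ * lam n) (D * lam n) (d * lam n) (Λ₁ * lam n) (conf x)) ∨
          E0 n m x) ∨ E2 n m x) ∨ E1 n m x) ∨ E3 n m x) := by
      refine hB1 _ _ _ hsm ?_
      intro m x hx hSC
      by_cases g3 : E3 n m x
      · exact Or.inr g3
      left
      by_cases g1 : E1 n m x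
      · exact Or.inr g1
      left
      by_cases g2 : E2 n m x
      · exact Or.inr g2
      left
      by_cases g0 : E0 n m x
      · exact Or.inr g0
      left
      simp only [hE0, not_exists, not_le] at g0
      simp only [hE2, not_exists, not_lt] at g2
      simp only [hE1, not_exists, not_and, not_lt] at g1
      simp only [hE3, not_exists, not_and, not_le] at g3
      have hhpos : 0 < hc e n := lt_of_lt_of_le (by positivity) hh1
      have hs2 : (0 : ℝ) ≤ Real.sqrt 2 := Real.sqrt_nonneg _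
      have hMh : Real.sqrt 2 * M * hc e n ≤ d * lam n := by
        rw [hd]
        calc Real.sqrt 2 * M * hc e n ≤ Real.sqrt 2 * M * (e * lam n) := by gcongr
          _ = Real.sqrt 2 * M * e * lam n := by ring
      have hDh : q * (2 * Real.sqrt 2 * M * hc e n + 2 * (C' * lam n)) ≤ D * lam n := by
        have e1 : q * (2 * Real.sqrt 2 * M * hc e n + 2 * (C' * lam n)) ≤
            q * (2 * Real.sqrt 2 * M * (e * lam n) + 2 * (C' * lam n)) := by gcongr
        have e2 : q * (2 * Real.sqrt 2 * M * (e * lam n) + 2 * (C' * lam n)) + lam n = D * lam n := by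
          rw [hD]; ring
        linarith
      have hr5 : Real.sqrt 5 * hc e n ≤ a₀ * lam n := by
        have e5 : Real.sqrt 5 ≤ 3 := by
          rw [Real.sqrt_le_left (by norm_num)]; norm_num
        calc Real.sqrt 5 * hc e n ≤ 3 * (e * lam n) := by gcongr
          _ = a₀ * lam n := by rw [he_def]; ring
      have hres := red_det hDR n (hc e n) (a₀ * lam n) (C' * lam n) (D * lam n) (d * lam n)
        (Λ₁ * lam n) (J * lam n) (mc e n) M M' q (kn c n) m x hhpos (by positivity)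
        (by gcongr; exact le_max_right _ _) hℓ hk hM (le_max_left _ _) hM'mc hr5 hx ?_
        g0 ?_ ?_ ?_ hDh hMh ?_ hSC
      · tauto
      · -- window size
        have e3 : 2 * (q * (2 * Real.sqrt 2 * M * hc e n + 2 * (C' * lam n)) + C' * lam n +
            Real.sqrt 2 * M * hc e n) + 4 * hc e n ≤
            2 * (D * lam n + C' * lam n + d * lam n) + 4 * (e * lam n) := by
          gcongr
        have e4 : 2 * (D * lam n + C' * lam n + d * lam n) + 4 * (e * lam n) =
            (2 * (D + C' + d) + 4 * e) * lam n := by ring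
        have e5 : (2 * (D + C' + d) + 4 * e) * lam n ≤ M' * (e / 2) * lam n := by gcongr
        have e6 : (M' : ℝ) * (e / 2) * lam n ≤ M' * hc e n := by
          rw [mul_assoc]
          gcongr
        linarith
      · intro i
        refine (g2 i).trans (Set.ncard_le_ncard ?_ (Set.toFinite _))
        intro l hl
        refine ⟨hl.1, hl.2.trans_le ?_⟩
        gcongr
        exact le_max_left _ _
      · exact fun a b ha hb => g1 a b ha hb
      · intro c' hc1 hc2 hc3 z hz w hw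
        exact g3 c' hc1 hc2 hc3 z hz w hw
      · rw [hJ, add_mul]
    refine hmain.trans ?_
    refine (hB2 _ _ _).trans ?_
    have s1 := hB2 (Sq n) (fun m x => (((((¬ NZ (kn c n) x ∨
          BadI (kn c n) n (a₀ * lam n) (D * lam n) (d * lam n) (Λ₁ * lam n) (conf x)) ∨
          BadO (kn c n) n (a₀ * lam n) (D * lam n) (d * lam n) (Λ₁ * lam n) (conf x)) ∨
          E0 n m x) ∨ E2 n m x))) (E1 n)
    have s2 := hB2 (Sq n) (fun m x => ((((¬ NZ (kn c n) x ∨
          BadI (kn c n) n (a₀ * lam n) (D * lam n) (d * lam n) (Λ₁ * lam n) (conf x)) ∨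
          BadO (kn c n) n (a₀ * lam n) (D * lam n) (d * lam n) (Λ₁ * lam n) (conf x)) ∨
          E0 n m x))) (E2 n)
    have s3 := hB2 (Sq n) (fun m x => (((¬ NZ (kn c n) x ∨
          BadI (kn c n) n (a₀ * lam n) (D * lam n) (d * lam n) (Λ₁ * lam n) (conf x)) ∨
          BadO (kn c n) n (a₀ * lam n) (D * lam n) (d * lam n) (Λ₁ * lam n) (conf x)))) (E0 n)
    have s4 := hB2 (Sq n) (fun m x => ((¬ NZ (kn c n) x ∨
          BadI (kn c n) n (a₀ * lam n) (D * lam n) (d * lam n) (Λ₁ * lam n) (conf x))))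
          (fun m x => BadO (kn c n) n (a₀ * lam n) (D * lam n) (d * lam n) (Λ₁ * lam n) (conf x))
    have s5 := hB2 (Sq n) (fun m x => ¬ NZ (kn c n) x)
          (fun m x => BadI (kn c n) n (a₀ * lam n) (D * lam n) (d * lam n) (Λ₁ * lam n) (conf x))
    unfold PP
    refine (add_le_add_left (s1.trans (add_le_add_left (s2.trans (add_le_add_left (s3.trans
      (add_le_add_left (s4.trans (add_le_add_left s5 _)) _)) _)) _)) _).trans (le_of_eq ?_)
    ring

end KN
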